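import Pool.Agent.N909.CL.Def

/-!
# CL/I: parameters for the stopping time constant
-/

set_option autoImplicit false

namespace Pool.Agent.N624.CL.I

open Pool.Agent.N909.CM Pool.Agent.N909.CL

theorem f_pos {p x : ℝ} (hp1 : p < 1) (hx0 : 0 < x) (hxp : x < p)
    (hp : Real.binEntropy p = p * Real.log 3) : x * Real.log 3 < Real.binEntropy x := by
  have hp0 : 0 < p := hx0.trans hxp
  have hc := Real.strictConcave_binEntropy.2 (show p ∈ Set.Icc (0 : ℝ) 1 from ⟨hp0.le, hp1.le⟩)
    (show (0 : ℝ) ∈ Set.Icc (0 : ℝ) 1 from ⟨le_rfl, zero_le_one⟩) hp0.ne'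
    (show 0 < x / p from div_pos hx0 hp0)
    (show 0 < 1 - x / p by rw [sub_pos, div_lt_one hp0]; exact hxp) (by ring)
  simp only [Real.binEntropy_zero, hp, smul_eq_mul] at hc
  have e1 : x / p * p + (1 - x / p) * 0 = x := by
    field_simp
    ring
  have e2 : x / p * (p * Real.log 3) + (1 - x / p) * 0 = x * Real.log 3 := by
    field_simp
    ring
  rw [e1, e2] at hc
  exact hc

theorem lt_three_quarters {p : ℝ} (hp1 : p < 1) (hp : Real.binEntropy p = p * Real.log 3) :
    p < 3 / 4 := by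
  by_contra hcon
  push Not at hcon
  have h1 : 3 / 4 * Real.log 3 ≤ Real.binEntropy (3 / 4) := by
    rcases hcon.eq_or_lt with h | h
    · rw [h, hp]
    · exact (f_pos hp1 (by norm_num) h hp).le
  have h2 : Real.binEntropy (3 / 4) = 2 * Real.log 2 - 3 / 4 * Real.log 3 := by
    unfold Real.binEntropy
    have e1 : ((3 : ℝ) / 4)⁻¹ = 2 ^ 2 / 3 := by norm_num
    have e2 : ((1 : ℝ) - 3 / 4)⁻¹ = 2 ^ 2 := by norm_num
    rw [e1, e2, Real.log_div (by norm_num) (by norm_num), Real.log_pow]
    push_cast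
    ring
  have h3 : Real.log (2 ^ 4) < Real.log (3 ^ 3) :=
    Real.log_lt_log (by norm_num) (by norm_num)
  rw [Real.log_pow, Real.log_pow] at h3
  push_cast at h3
  linarith

theorem params (hH : StmH) {p : ℝ} (hp12 : 1 / 2 < p) (hp1 : p < 1)
    (hp : Real.binEntropy p = p * Real.log 3) (hD : 0 < Real.log 2 - p * Real.log 3) (γ : ℝ)
    (hγ : 0 < γ) (hγ1 : γ < 1 / (Real.log 2 - p * Real.log 3)) :
    ∃ b u : ℕ, 0 < u ∧ u < b ∧ 3 ^ u < 2 ^ b ∧
      3 ^ u ≤ b.choose u ∧ γ < b / Real.log ((2 : ℝ) ^ b / 3 ^ u) := by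
  have hl3 : 0 < Real.log 3 := Real.log_pos (by norm_num)
  have hl2 : 0 < Real.log 2 := Real.log_pos (by norm_num)
  have h1 : (Real.log 2 - 1 / γ) / Real.log 3 < p := by
    rw [div_lt_iff₀ hl3]
    have : Real.log 2 - p * Real.log 3 < 1 / γ := by
      rw [lt_div_iff₀ hγ]
      rw [lt_div_iff₀ hD] at hγ1
      linarith
    linarith
  obtain ⟨x, hx1, hx2⟩ := exists_rat_btwn (max_lt hp12 h1)
  have hx3 : (1 : ℝ) / 2 < x := (le_max_left _ _).trans_lt hx1
  have hx4 : (Real.log 2 - 1 / γ) / Real.log 3 < x := (le_max_right _ _).trans_lt hx1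
  have hx0 : (0 : ℝ) < x := by linarith
  have hx5 : (x : ℝ) < 1 := hx2.trans hp1
  have hf := f_pos hp1 hx0 hx2 hp
  set f : ℝ := Real.binEntropy x - x * Real.log 3 with hfdef
  have hf0 : 0 < f := by rw [hfdef]; linarith
  obtain ⟨m, hm⟩ := exists_nat_gt (max 1 (2 / f ^ 2))
  have hm1 : (1 : ℝ) < m := (le_max_left _ _).trans_lt hm
  have hm2 : 2 / f ^ 2 < (m : ℝ) := (le_max_right _ _).trans_lt hm
  have hm0 : 0 < m := by
    have : (0 : ℝ) < m := by linarith
    exact_mod_cast this
  have hxq : 0 < x := by exact_mod_cast hx0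
  have hxnum : 0 < x.num := Rat.num_pos.2 hxq
  have hnum : ((x.num.toNat : ℕ) : ℤ) = x.num := Int.toNat_of_nonneg hxnum.le
  have hxe : (x : ℝ) = (x.num.toNat : ℝ) / (x.den : ℝ) := by
    have h : ((x.num.toNat : ℕ) : ℝ) = ((x.num : ℤ) : ℝ) := by
      rw [← Int.cast_natCast, hnum]
    rw [h]
    exact (Rat.cast_def x)
  have hden : 0 < x.den := x.den_pos
  have hdenR : (0 : ℝ) < x.den := by exact_mod_cast hden
  have hu0 : 0 < x.num.toNat := by omega
  have hub : x.num.toNat < x.den := by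
    have : (x.num.toNat : ℝ) < (x.den : ℝ) := by
      rw [hxe, div_lt_one hdenR] at hx5
      exact hx5
    exact_mod_cast this
  generalize hu0' : x.num.toNat = u0 at hu0 hub hxe
  generalize hb0' : x.den = b0 at hub hxe hden hdenR
  have hmR : (0 : ℝ) < m := by linarith
  have hratio : ((m * u0 : ℕ) : ℝ) / ((m * b0 : ℕ) : ℝ) = x := by
    rw [hxe]
    push_cast
    field_simp
  have hbpos : (0 : ℝ) < ((m * b0 : ℕ) : ℝ) := by
    push_cast
    positivity
  have hu : ((m * u0 : ℕ) : ℝ) = ((m * b0 : ℕ) : ℝ) * x := by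
    rw [← hratio]
    field_simp
  have hbm : (m : ℝ) ≤ ((m * b0 : ℕ) : ℝ) := by
    have : m ≤ m * b0 := Nat.le_mul_of_pos_right m hden
    exact_mod_cast this
  have hxl : (x : ℝ) * Real.log 3 < Real.log 2 := by
    have : (x : ℝ) * Real.log 3 < p * Real.log 3 := mul_lt_mul_of_pos_right hx2 hl3
    linarith
  have hHb := hH (m * b0) (m * u0) (Nat.mul_pos hm0 hu0) (Nat.mul_lt_mul_of_pos_left hub hm0)
  rw [hratio] at hHb
  generalize hB : m * b0 = B at *
  generalize hU : m * u0 = U at *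
  have hBpos : 0 < B := by exact_mod_cast hbpos
  have hUpos : 0 < U := by rw [← hU]; exact Nat.mul_pos hm0 hu0
  have hUB : U < B := by rw [← hU, ← hB]; exact Nat.mul_lt_mul_of_pos_left hub hm0
  refine ⟨B, U, hUpos, hUB, ?_, ?_, ?_⟩
  · have h3 : (3 : ℝ) ^ U < 2 ^ B := by
      rw [← Real.log_lt_log_iff (by positivity) (by positivity), Real.log_pow, Real.log_pow, hu]
      have := mul_lt_mul_of_pos_left hxl hbpos
      linarith
    exact_mod_cast h3
  · have h3 : (3 : ℝ) ^ U = Real.exp (B * (x * Real.log 3)) := by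
      rw [show (B : ℝ) * (x * Real.log 3) = (U : ℝ) * Real.log 3 by rw [hu]; ring,
        Real.exp_nat_mul, Real.exp_log (by norm_num)]
    have h4 : Real.exp (B * Real.binEntropy x) =
        Real.exp (B * (x * Real.log 3)) * Real.exp (B * f) := by
      rw [← Real.exp_add]
      congr 1
      rw [hfdef]
      ring
    have h5 : (B : ℝ) + 1 ≤ Real.exp (B * f) := by
      have h6 := Real.quadratic_le_exp_of_nonneg (x := B * f) (by positivity)
      have h7 : 2 ≤ f ^ 2 * B := by
        rw [div_lt_iff₀ (by positivity)] at hm2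
        nlinarith [sq_nonneg f]
      have h8 : (B : ℝ) ≤ (B * f) ^ 2 / 2 := by nlinarith
      have h9 : 0 ≤ B * f := by positivity
      linarith
    have h6 : (B + 1 : ℝ) * (3 : ℝ) ^ U ≤ (B + 1) * (B.choose U : ℝ) := by
      refine le_trans ?_ hHb
      rw [h4, ← h3, mul_comm]
      exact mul_le_mul_of_nonneg_left h5 (by positivity)
    have h7 : (3 : ℝ) ^ U ≤ (B.choose U : ℝ) := le_of_mul_le_mul_left h6 (by positivity)
    exact_mod_cast h7
  · rw [Real.log_div (by positivity) (by positivity), Real.log_pow, Real.log_pow, hu,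
      show (B : ℝ) * Real.log 2 - B * x * Real.log 3 = B * (Real.log 2 - x * Real.log 3) by ring]
    have h3 : 0 < Real.log 2 - x * Real.log 3 := by linarith
    rw [show (B : ℝ) / (B * (Real.log 2 - x * Real.log 3)) = 1 / (Real.log 2 - x * Real.log 3) by
      field_simp]
    rw [lt_div_iff₀ h3]
    rw [div_lt_iff₀ hl3] at hx4
    have h4 : Real.log 2 - x * Real.log 3 < 1 / γ := by linarith
    rw [lt_div_iff₀ hγ] at h4
    linarith

theorem theta {p : ℝ} (hp12 : 1 / 2 < p) (hp1 : p < 1)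
    (hp : Real.binEntropy p = p * Real.log 3) (hD : 0 < Real.log 2 - p * Real.log 3) :
    ∃ θ : ℝ, 0 < θ ∧ θ < 1 ∧ (1 + θ) / (-Real.log (mm θ)) = 1 / (Real.log 2 - p * Real.log 3) := by
  have hl3 : 0 < Real.log 3 := Real.log_pos (by norm_num)
  have hp0 : 0 < p := by linarith
  have hq0 : 0 < 1 - p := by linarith
  have h34 := lt_three_quarters hp1 hp
  have hr : 1 < p / (1 - p) := by
    rw [lt_div_iff₀ hq0]
    linarith
  have hr3 : p / (1 - p) < 3 := by
    rw [div_lt_iff₀ hq0]
    linarith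
  have hr0 : 0 < p / (1 - p) := by positivity
  refine ⟨Real.log (p / (1 - p)) / Real.log 3, div_pos (Real.log_pos hr) hl3, ?_, ?_⟩
  · rw [div_lt_one hl3]
    exact Real.log_lt_log hr0 hr3
  · set θ : ℝ := Real.log (p / (1 - p)) / Real.log 3 with hθ
    have hθ0 : 0 < θ := div_pos (Real.log_pos hr) hl3
    have hθl : θ * Real.log 3 = Real.log p - Real.log (1 - p) := by
      rw [hθ, div_mul_cancel₀ _ hl3.ne', Real.log_div hp0.ne' hq0.ne']
    have h3 : (3 : ℝ) ^ θ = p / (1 - p) := by
      rw [Real.rpow_def_of_pos (by norm_num), mul_comm, hθ, div_mul_cancel₀ _ hl3.ne',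
        Real.exp_log hr0]
    have hmm : mm θ = 1 / ((1 - p) * (2 : ℝ) ^ (θ + 1)) := by
      unfold mm
      rw [Real.div_rpow (by norm_num) (by norm_num), Real.div_rpow (by norm_num) (by norm_num),
        Real.one_rpow, h3, Real.rpow_add (by norm_num), Real.rpow_one]
      have h2 : (0 : ℝ) < 2 ^ θ := Real.rpow_pos_of_pos (by norm_num) _
      field_simp
      ring
    have hlog : -Real.log (mm θ) = (1 + θ) * (Real.log 2 - p * Real.log 3) := by
      rw [hmm, Real.log_div one_ne_zero (by positivity), Real.log_one,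
        Real.log_mul hq0.ne' (by positivity), Real.log_rpow (by norm_num)]
      have hent : -(p * Real.log p) - (1 - p) * Real.log (1 - p) = p * Real.log 3 := by
        rw [← hp]
        unfold Real.binEntropy
        rw [Real.log_inv, Real.log_inv]
        ring
      have h5 : (1 + θ) * (p * Real.log 3) = -Real.log (1 - p) := by
        have : (1 + θ) * (p * Real.log 3) = p * Real.log 3 + p * (θ * Real.log 3) := by ring
        rw [this, hθl]
        linarith
      have h6 : (1 + θ) * (Real.log 2 - p * Real.log 3) =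
          (1 + θ) * Real.log 2 - (1 + θ) * (p * Real.log 3) := by ring
      rw [h6, h5]
      ring
    rw [hlog]
    have h1 : 0 < 1 + θ := by linarith
    field_simp

theorem t (hH : Pool.Agent.N909.CL.StmH) : Pool.Agent.N909.CL.StmI := by
  intro p hp12 hp1 hp
  have hD : 0 < Real.log 2 - p * Real.log 3 := by
    rw [← hp, sub_pos]
    refine Real.binEntropy_lt_log_two.2 ?_
    intro h
    rw [h] at hp12
    norm_num at hp12
  exact ⟨hD, fun γ h0 h1 => params hH hp12 hp1 hp hD γ h0 h1, theta hp12 hp1 hp hD⟩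

end Pool.Agent.N624.CL.I
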